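import Pool.Agent.Lib.MP_6bc78b_nt.MS.P5.Iface
import Pool.Agent.Lib.MP_02fec8_nt.Mert

/-! Project MS, Part V, module SIG: the variance of the prime polynomial. -/

set_option autoImplicit false

open Complex Filter Topology MeasureTheory ArithmeticFunction

namespace Pool.Agent.Lib.MP_6bc78b_nt.MS.P5

open Pool.Agent.Lib.MP_6bc78b_nt.MS.P1

/-- value of `bp` at a prime -/
theorem sig_bp_prime (lam T : ℝ) (p : ℕ) (hp : p.Prime) : bp lam T p =
    if (p : ℝ) ≤ T ^ lam then
      Real.log p * (1 - Real.log p / (lam * Real.log T)) / (lam * Real.log T) else 0 := by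
  change (if p.Prime then bb lam T p else 0) = _
  rw [if_pos hp]
  change bbf lam T p = _
  unfold bbf
  rw [ArithmeticFunction.vonMangoldt_apply_prime hp]

theorem sig_bp_not (lam T : ℝ) (p : ℕ) (hp : ¬ p.Prime) : bp lam T p = 0 := by
  change (if p.Prime then bb lam T p else 0) = _
  rw [if_neg hp]

theorem sig : SigStatement := by
  obtain ⟨C, hC0, hC⟩ := Pool.Agent.Lib.MP_02fec8_nt.Mert.mertens1
  refine ⟨1 + C, by linarith, fun T lam hT hlam => ?_⟩
  have hlT : 0 < Real.log T := Real.log_pos (by linarith)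
  set L1 : ℝ := lam * Real.log T with hL1
  have hL : 1 ≤ L1 := by
    rw [div_le_iff₀ hlT] at hlam
    exact hlam
  have hL0 : 0 < L1 := by linarith
  have hTl : T ^ lam = Real.exp L1 := by
    rw [Real.rpow_def_of_pos (by linarith), hL1, mul_comm]
  -- the prime values
  have hx : ∀ p : ℕ, p.Prime → (p : ℝ) ≤ T ^ lam →
      0 ≤ Real.log p / L1 ∧ Real.log p / L1 ≤ 1 := by
    intro p hp hpT
    have hp1 : (1 : ℝ) ≤ p := by exact_mod_cast hp.one_lt.le
    have h0 : 0 ≤ Real.log p := Real.log_nonneg hp1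
    refine ⟨by positivity, ?_⟩
    rw [div_le_one hL0]
    rw [hTl] at hpT
    have := Real.log_le_log (by linarith) hpT
    rwa [Real.log_exp] at this
  have hval : ∀ p : ℕ, p.Prime → (p : ℝ) ≤ T ^ lam →
      bp lam T p = Real.log p / L1 * (1 - Real.log p / L1) := by
    intro p hp hpT
    rw [sig_bp_prime lam T p hp, if_pos hpT, ← hL1]
    ring
  have hbd : ∀ n : ℕ, 0 ≤ bp lam T n ∧ bp lam T n ≤ 1 := by
    intro n
    by_cases hn : n.Prime
    · by_cases hnT : (n : ℝ) ≤ T ^ lam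
      · obtain ⟨h1, h2⟩ := hx n hn hnT
        rw [hval n hn hnT]
        constructor
        · apply mul_nonneg h1; linarith
        · nlinarith
      · rw [sig_bp_prime lam T n hn, if_neg hnT]
        exact ⟨le_refl _, zero_le_one⟩
    · rw [sig_bp_not lam T n hn]
      exact ⟨le_refl _, zero_le_one⟩
  refine ⟨?_, hbd⟩
  set N : ℕ := ⌊T ^ lam⌋₊ with hN
  have hTpos : (1 : ℝ) ≤ T ^ lam := by
    rw [hTl]; exact Real.one_le_exp hL0.le
  have hN1 : 1 ≤ N := by
    rw [hN]; exact Nat.le_floor (by exact_mod_cast hTpos)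
  have hNle : (N : ℝ) ≤ T ^ lam := Nat.floor_le (by linarith)
  have hterm : ∀ p ∈ Finset.Icc 1 N, bp lam T p ^ 2 / (p : ℝ) ≤
      if p.Prime then (Real.log p / p) / L1 else 0 := by
    intro p hp
    rw [Finset.mem_Icc] at hp
    by_cases hpp : p.Prime
    · rw [if_pos hpp]
      have hpT : (p : ℝ) ≤ T ^ lam := le_trans (by exact_mod_cast hp.2) hNle
      obtain ⟨h1, h2⟩ := hx p hpp hpT
      have h3 : bp lam T p ≤ Real.log p / L1 := by
        rw [hval p hpp hpT]; nlinarith
      obtain ⟨h4, h5⟩ := hbd p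
      have h6 : bp lam T p ^ 2 ≤ Real.log p / L1 := by nlinarith
      have hp0 : (0 : ℝ) < p := by exact_mod_cast hpp.pos
      calc bp lam T p ^ 2 / (p : ℝ) ≤ (Real.log p / L1) / p :=
            div_le_div_of_nonneg_right h6 hp0.le
        _ = _ := by ring
    · rw [if_neg hpp, sig_bp_not lam T p hpp]
      simp
  have hM := hC N hN1
  have hsum : ∑ p ∈ Finset.Icc 1 N, (if p.Prime then (Real.log p / p) / L1 else 0) =
      Pool.Agent.Lib.MP_02fec8_nt.Mert.M N / L1 := by
    unfold Pool.Agent.Lib.MP_02fec8_nt.Mert.M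
    rw [← Finset.sum_filter, Finset.sum_div]
    apply Finset.sum_congr _ (fun _ _ => rfl)
    ext p
    rw [Finset.mem_filter, Finset.mem_Icc, Nat.mem_primesLE]
    constructor
    · rintro ⟨⟨_, h⟩, h2⟩; exact ⟨h, h2⟩
    · rintro ⟨h, h2⟩; exact ⟨⟨h2.one_lt.le, h⟩, h2⟩
  have hlogN : Real.log N ≤ L1 := by
    have h7 : (0 : ℝ) < N := by exact_mod_cast hN1
    have := Real.log_le_log h7 hNle
    rwa [hTl, Real.log_exp] at this
  calc ∑ p ∈ Finset.Icc 1 N, bp lam T p ^ 2 / (p : ℝ)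
      ≤ ∑ p ∈ Finset.Icc 1 N, (if p.Prime then (Real.log p / p) / L1 else 0) :=
        Finset.sum_le_sum hterm
    _ = Pool.Agent.Lib.MP_02fec8_nt.Mert.M N / L1 := hsum
    _ ≤ (L1 + C) / L1 := by
        apply div_le_div_of_nonneg_right _ hL0.le
        have := (abs_le.1 hM).2
        linarith
    _ ≤ 1 + C := by
        rw [div_le_iff₀ hL0]
        nlinarith

end Pool.Agent.Lib.MP_6bc78b_nt.MS.P5
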